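import Pool.Agent.H36.Tight.Example

/-!
A tight polyhedral immersion of the twisted torus plus a handle.
-/

namespace Pool.Agent.Results.MP_9a15ec_gt.TightClassB

open Pool.Agent.H36.Tight

lemma disj {l₁ l₂ : List (Fin 17)} (h : ∀ a, a ∈ l₁ → ¬ a ∈ l₂) : l₁.Disjoint l₂ :=
  fun a h₁ h₂ => h a h₁ h₂

lemma curve_a₁ : IsCurve TT pos [1, 4, 6] :=
  isCurve_of_check (l := [(1, 0, 0, 1, -4), (4, 0, -3, -6, 30), (6, 0, 3, 5, -29)])
    (by decide +kernel)

lemma curve_b₁ : IsCurve TT pos [1, 5, 7] :=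
  isCurve_of_check (l := [(1, 0, 1, -1, 6), (5, 0, -6, -7, 55), (7, 0, 5, 8, -48)])
    (by decide +kernel)

lemma curve_a₂ : IsCurve TT pos [3, 0, 13] :=
  isCurve_of_check (l := [(3, 0, -10, 0, 0), (0, 0, 0, -6, 0), (13, 0, 10, 6, -60)])
    (by decide +kernel)

lemma curve_b₂ : IsCurve TT pos [3, 11, 12] :=
  isCurve_of_check (l := [(3, 7, -10, 0, 100), (11, -4, 7, 0, -70), (12, -3, 3, 0, -39)])
    (by decide +kernel)

lemma cross₁ : Cross TT [1, 4, 6] [1, 5, 7] :=
  ⟨1, 4, 6, 5, 7, [], [], [4, 9, 5, 12, 3, 6, 7], rfl, rfl, disj (by decide),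
    isLink_of_check (by decide +kernel), by decide⟩

lemma cross₂ : Cross TT [3, 0, 13] [3, 11, 12] :=
  ⟨3, 0, 13, 11, 12, [], [], [0, 11, 13, 12, 1, 6, 10], rfl, rfl, disj (by decide),
    isLink_of_check (by decide +kernel), by decide⟩

lemma twist_a₁ : HasTwist TT pos [1, 4, 6] 1 :=
  hasTwist_of_check _ [(1, 7), (4, 7), (4, 11), (6, 11), (6, 2), (6, 7)]
    (isSide_of_check (by decide +kernel)) (0, -1, 1) (by decide) 1 (by decide +kernel)

lemma twist_b₁ : HasTwist TT pos [1, 5, 7] 1 :=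
  hasTwist_of_check _ [(1, 6), (1, 3), (1, 12), (5, 12), (5, 2), (7, 2), (7, 6)]
    (isSide_of_check (by decide +kernel)) (-1, -1, 0) (by decide) 1 (by decide +kernel)

lemma twist_a₂ : HasTwist TT pos [3, 0, 13] 0 :=
  hasTwist_of_check _ [(3, 11), (0, 11), (0, 7), (0, 5), (13, 5), (13, 8), (13, 14), (13, 11)]
    (isSide_of_check (by decide +kernel)) (0, -1, -1) (by decide) 0 (by decide +kernel)

lemma twist_b₂ : HasTwist TT pos [3, 11, 12] 0 :=
  hasTwist_of_check _ [(3, 13), (11, 13), (11, 14), (12, 14), (12, 15), (12, 13)]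
    (isSide_of_check (by decide +kernel)) (0, 0, -1) (by decide) 0 (by decide +kernel)

/-- The image homotopy class (B), the twisted torus plus a handle (closed orientable surface of
genus 2), contains a tight polyhedral immersion into Euclidean 3-space: there is a triangulation
with 17 vertices and a position of its vertices for which the linear extension is a tight
immersion in class (B). -/
theorem result : ∃ (T : Finset (Finset (Fin 17))) (p : Fin 17 → E3),
    IsClosedSurface T ∧ IsOrientable T ∧ eulerChar T = -2 ∧ IsImmersion T p ∧ IsTight T p ∧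
      InClassB T p := by
  refine ⟨TT, pos, isClosedSurface_TT, isOrientable_TT, eulerChar_TT, isImmersion_TT,
    isTight_TT, [1, 4, 6], [1, 5, 7], [3, 0, 13], [3, 11, 12], ?_, cross₁, cross₂, disj (by decide),
    twist_a₁, twist_b₁, twist_a₂, twist_b₂⟩
  intro c hc
  simp only [List.mem_cons, List.not_mem_nil, or_false] at hc
  rcases hc with rfl | rfl | rfl | rfl
  · exact curve_a₁
  · exact curve_b₁
  · exact curve_a₂
  · exact curve_b₂

end Pool.Agent.Results.MP_9a15ec_gt.TightClassB
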